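import Pool.Agent.R270.UnifConv

/-!
# Mu-compact closed bounded convex subsets of `ℓ_p` and `L_p[0,1]` are compact
-/

namespace Pool.Agent.Results.MP_5b7a98_an.MuCompact

open Set Filter Topology MeasureTheory
open scoped ENNReal NNReal BoundedContinuousFunction

/-- `A` is mu-compact: for every compact `K ⊆ A` the set of all Borel probability measures on `A`
whose barycentre (Bochner integral) lies in `K` is compact in the weak topology of measures. -/
def IsMuCompact {E : Type*} [NormedAddCommGroup E] [NormedSpace ℝ E] (A : Set E) : Prop :=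
  letI : MeasurableSpace A := borel A
  haveI : BorelSpace A := ⟨rfl⟩
  ∀ K : Set E, K ⊆ A → IsCompact K →
    IsCompact {μ : ProbabilityMeasure A | ∫ x : A, (x : E) ∂(μ : Measure A) ∈ K}

section aux

variable {E : Type*} [NormedAddCommGroup E] [NormedSpace ℝ E]

lemma exists_measure [CompleteSpace E] {A : Set E} [MeasurableSpace A] [BorelSpace A] (F : Set A) (x : E)
    (hx : x ∈ convexHull ℝ ((fun z : A => (z : E)) '' F)) :
    ∃ ν : ProbabilityMeasure A, ∫ z : A, (z : E) ∂(ν : Measure A) = x ∧
      ∀ᵐ z ∂(ν : Measure A), z ∈ F := by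
  classical
  rw [mem_convexHull_iff_exists_fintype] at hx
  obtain ⟨ι, hι, w, z, hw0, hw1, hz, hsum⟩ := hx
  choose z' hz'F hz' using hz
  set ν : Measure A := ∑ i, ENNReal.ofReal (w i) • Measure.dirac (z' i) with hν
  have hprob : IsProbabilityMeasure ν := by
    constructor
    rw [hν, Measure.finsetSum_apply]
    simp only [Measure.smul_apply, measure_univ, smul_eq_mul, mul_one]
    rw [← ENNReal.ofReal_sum_of_nonneg fun i _ => hw0 i, hw1, ENNReal.ofReal_one]
  refine ⟨⟨ν, hprob⟩, ?_, ?_⟩
  · simp only [ProbabilityMeasure.coe_mk, hν]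
    rw [integral_finsetSum_measure]
    · simp only [integral_smul_measure]
      rw [← hsum]
      refine Finset.sum_congr rfl fun i _ => ?_
      rw [ENNReal.toReal_ofReal (hw0 i), ← hz' i, integral_dirac]
    · intro i _
      exact (integrable_dirac (by simp)).smul_measure ENNReal.ofReal_ne_top
  · simp only [ProbabilityMeasure.coe_mk, hν]
    rw [ae_finsetSum_measure_iff]
    intro i _
    refine Measure.ae_smul_measure ?_ _
    rw [ae_dirac_eq]
    exact hz'F i

lemma main [CompleteSpace E]
    (hnest : ∀ S : ℕ → Set E, (∀ n, IsClosed (S n)) → (∀ n, Convex ℝ (S n)) →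
      (∀ n, (S n).Nonempty) → Antitone S → (∃ M, ∀ x ∈ S 0, ‖x‖ ≤ M) → (⋂ n, S n).Nonempty)
    (A : Set E) (hcl : IsClosed A) (hbd : Bornology.IsBounded A) (hconv : Convex ℝ A)
    (h : IsMuCompact A) : IsCompact A := by
  classical
  letI : MeasurableSpace A := borel A
  haveI : BorelSpace A := ⟨rfl⟩
  by_contra hcomp
  have htb : ¬ TotallyBounded A := fun h =>
    hcomp (isCompact_iff_totallyBounded_isComplete.2 ⟨h, hcl.isComplete⟩)
  rw [Metric.totallyBounded_iff] at htb
  push Not at htb
  obtain ⟨δ, hδ, hδ2⟩ := htb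
  obtain ⟨a, haA, hsep⟩ := exists_seq_of_forall_finset_exists (fun x : E => x ∈ A)
    (fun x y => δ ≤ dist y x) (fun s _ => by
      have h1 := hδ2 s s.finite_toSet
      rw [Set.not_subset] at h1
      obtain ⟨y, hyA, hy⟩ := h1
      refine ⟨y, hyA, fun x hx => ?_⟩
      by_contra hlt
      push Not at hlt
      exact hy (mem_iUnion₂.2 ⟨x, hx, hlt⟩))
  -- the nested sets
  set S : ℕ → Set E := fun m => closure (convexHull ℝ (a '' Ici m)) with hS
  have hSA : ∀ m, convexHull ℝ (a '' Ici m) ⊆ A := by
    intro m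
    refine convexHull_min ?_ hconv
    rintro _ ⟨n, -, rfl⟩
    exact haA n
  obtain ⟨M, hM⟩ := hbd.exists_norm_le
  obtain ⟨c, hc⟩ := hnest S (fun n => isClosed_closure) (fun n => (convex_convexHull ℝ _).closure)
    (fun n => ⟨a n, subset_closure (subset_convexHull ℝ _ ⟨n, self_mem_Ici, rfl⟩)⟩)
    (fun m n hmn => closure_mono (convexHull_mono (image_mono (Ici_subset_Ici.2 hmn))))
    ⟨M, fun x hx => hM x (closure_minimal (hSA 0) hcl hx)⟩
  rw [mem_iInter] at hc
  have hex : ∀ m : ℕ, ∃ x ∈ convexHull ℝ (a '' Ici m), dist x c < 1 / ((m : ℝ) + 1) := by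
    intro m
    obtain ⟨x, hx, hx2⟩ := Metric.mem_closure_iff.1 (hc m) (1 / ((m : ℝ) + 1)) (by positivity)
    exact ⟨x, hx, by rw [dist_comm]; exact hx2⟩
  choose x hxS hxc using hex
  have hxlim : Tendsto x atTop (𝓝 c) := by
    rw [tendsto_iff_dist_tendsto_zero]
    exact squeeze_zero (fun _ => dist_nonneg) (fun m => (hxc m).le)
      tendsto_one_div_add_atTop_nhds_zero_nat
  set K : Set E := insert c (range x) with hK
  have hKc : IsCompact K := hxlim.isCompact_insert_range
  have hKA : K ⊆ A := by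
    rintro y (rfl | ⟨m, rfl⟩)
    · exact closure_minimal (hSA 0) hcl (hc 0)
    · exact hSA m (hxS m)
  -- the supports and the measures
  set F : ℕ → Set A := fun m => {z : A | ∃ n, m ≤ n ∧ (z : E) = a n} with hF
  have hFimg : ∀ m, (fun z : A => (z : E)) '' F m = a '' Ici m := by
    intro m
    ext y
    constructor
    · rintro ⟨z, ⟨n, hn, hz⟩, rfl⟩
      exact ⟨n, hn, hz.symm⟩
    · rintro ⟨n, hn, rfl⟩
      exact ⟨⟨a n, haA n⟩, ⟨n, hn, rfl⟩, rfl⟩
  have hmeas : ∀ m, ∃ ν : ProbabilityMeasure A, ∫ z : A, (z : E) ∂(ν : Measure A) = x m ∧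
      ∀ᵐ z ∂(ν : Measure A), z ∈ F m := by
    intro m
    apply exists_measure
    rw [hFimg]
    exact hxS m
  choose ν hν1 hν2 using hmeas
  obtain ⟨μ, -, hcluster⟩ := (h K hKA hKc).exists_mapClusterPt (f := atTop) (u := ν) (by
    rw [le_principal_iff, mem_map]
    exact Eventually.of_forall fun m => by
      simp only [mem_preimage, mem_ofPred_eq, hν1]
      exact Or.inr ⟨m, rfl⟩)
  -- the test functions
  have hδ4 : 0 < δ / 4 := by positivity
  set g : ℕ → (A →ᵇ ℝ≥0) := fun m => thickenedIndicator hδ4 (F m) with hg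
  have hg1 : ∀ m, ∫⁻ z, (g m z : ℝ≥0∞) ∂(μ : Measure A) = 1 := by
    intro m
    have hclosed : IsClosed {ρ : ProbabilityMeasure A | ρ.toFiniteMeasure.testAgainstNN (g m) = 1} :=
      isClosed_eq (ProbabilityMeasure.continuous_testAgainstNN_eval (g m)) continuous_const
    have hev : ∀ᶠ k in atTop, ν k ∈
        {ρ : ProbabilityMeasure A | ρ.toFiniteMeasure.testAgainstNN (g m) = 1} := by
      filter_upwards [eventually_ge_atTop m] with k hk
      have h1 : ∫⁻ z, (g m z : ℝ≥0∞) ∂(ν k : Measure A) = 1 := by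
        have h2 : ∫⁻ z, (g m z : ℝ≥0∞) ∂(ν k : Measure A) = ∫⁻ _z, 1 ∂(ν k : Measure A) := by
          refine lintegral_congr_ae ?_
          filter_upwards [hν2 k] with z hz
          obtain ⟨n, hn, hzn⟩ := hz
          have hzF : z ∈ F m := ⟨n, hk.trans hn, hzn⟩
          rw [hg]
          simp only
          rw [thickenedIndicator_one hδ4 _ hzF]
          rfl
        rw [h2, lintegral_one, measure_univ]
      have h3 : ((ν k).toFiniteMeasure.testAgainstNN (g m) : ℝ≥0∞) = 1 := by
        rw [FiniteMeasure.testAgainstNN_coe_eq]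
        exact h1
      exact_mod_cast h3
    have hmem : μ ∈ {ρ : ProbabilityMeasure A | ρ.toFiniteMeasure.testAgainstNN (g m) = 1} := by
      have h1 := clusterPt_iff_forall_mem_closure.1 hcluster _ hev
      rwa [hclosed.closure_eq] at h1
    have h4 : (μ.toFiniteMeasure.testAgainstNN (g m) : ℝ≥0∞) = 1 := by
      rw [mem_ofPred_eq] at hmem
      rw [hmem]; rfl
    rw [FiniteMeasure.testAgainstNN_coe_eq] at h4
    exact h4
  have hg0 : ∀ z : A, ∀ᶠ m in atTop, g m z = 0 := by
    intro z
    -- at most one index `n` with `a n` close to `z`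
    have huniq : ∀ m n, dist (z : E) (a m) < δ / 4 → dist (z : E) (a n) < δ / 4 → m = n := by
      intro m n hm hn
      by_contra hne
      rcases lt_or_gt_of_ne hne with hlt | hlt
      · have h1 := hsep m n hlt
        have h2 := dist_triangle_left (a n) (a m) (z : E)
        linarith
      · have h1 := hsep n m hlt
        have h2 := dist_triangle_left (a m) (a n) (z : E)
        linarith
    obtain ⟨N, hN⟩ : ∃ N : ℕ, ∀ n, N ≤ n → δ / 4 ≤ dist (z : E) (a n) := by
      by_cases hclose : ∃ n, dist (z : E) (a n) < δ / 4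
      · obtain ⟨n0, hn0⟩ := hclose
        refine ⟨n0 + 1, fun n hn => ?_⟩
        by_contra hlt
        push Not at hlt
        have := huniq n0 n hn0 hlt
        omega
      · push Not at hclose
        exact ⟨0, fun n _ => hclose n⟩
    filter_upwards [eventually_ge_atTop N] with m hm
    rw [hg]
    simp only
    apply thickenedIndicator_zero
    rw [Metric.mem_thickening_iff]
    rintro ⟨y, ⟨n, hn, hyn⟩, hdist⟩
    have h1 := hN n (hm.trans hn)
    rw [Subtype.dist_eq, hyn] at hdist
    linarith
  have hlim : Tendsto (fun m => ∫⁻ z, (g m z : ℝ≥0∞) ∂(μ : Measure A)) atTop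
      (𝓝 (∫⁻ _z, 0 ∂(μ : Measure A))) := by
    refine tendsto_lintegral_of_dominated_convergence (fun _ => 1) ?_ ?_ ?_ ?_
    · intro m
      exact (g m).continuous.measurable.coe_nnreal_ennreal
    · intro m
      refine Eventually.of_forall fun z => ?_
      simp only
      exact_mod_cast thickenedIndicator_le_one hδ4 (F m) z
    · simp
    · refine Eventually.of_forall fun z => ?_
      refine tendsto_const_nhds.congr' ?_
      filter_upwards [hg0 z] with m hm
      rw [hm]; rfl
  simp only [hg1, lintegral_zero] at hlim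
  exact one_ne_zero (tendsto_nhds_unique tendsto_const_nhds hlim)

end aux

/-- Every nonempty closed bounded convex mu-compact subset of `E` is compact. -/
def MuCompactSetsAreCompact (E : Type*) [NormedAddCommGroup E] [NormedSpace ℝ E] : Prop :=
  ∀ A : Set E, A.Nonempty → IsClosed A → Bornology.IsBounded A → Convex ℝ A → IsMuCompact A →
    IsCompact A

/-- **Answer to Q1 (negative).** For `1 < p < ∞`, every closed bounded convex subset of `ℓ_p` which
is mu-compact is compact, and every closed bounded convex subset of `L_p[0,1]` which is mu-compact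
is compact. -/
theorem result (p : ℝ≥0∞) [Fact (1 ≤ p)] (hp1 : 1 < p) (hp2 : p < ∞) :
    MuCompactSetsAreCompact (lp (fun _ : ℕ => ℝ) p) ∧
    MuCompactSetsAreCompact (Lp ℝ p (volume.restrict (Icc (0 : ℝ) 1))) := by
  have hp : 1 < p.toReal := by
    rw [← ENNReal.toReal_one]
    exact (ENNReal.toReal_lt_toReal ENNReal.one_ne_top hp2.ne).2 hp1
  constructor
  · intro A _ hcl hbd hconv h
    refine main (fun S h1 h2 h3 h4 h5 => ?_) A hcl hbd hconv h
    obtain ⟨M, hM⟩ := h5
    exact R270.UnifConv.nested (by linarith) (R270.UnifConv.uc_lp p hp) S h1 h2 h3 h4 M hM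
  · intro A _ hcl hbd hconv h
    refine main (fun S h1 h2 h3 h4 h5 => ?_) A hcl hbd hconv h
    obtain ⟨M, hM⟩ := h5
    exact R270.UnifConv.nested (by linarith) (R270.UnifConv.uc_Lp _ p hp hp2.ne) S h1 h2 h3 h4 M hM

end Pool.Agent.Results.MP_5b7a98_an.MuCompact
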